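import Mathlib
import Pool.Agent.N639.SC.E
import Pool.Agent.N639.SC.I

/-!
# Parry powers of Perron numbers given by Salem's construction, by long gaps and by sparse blocks

Let `β` be a Perron number with minimal polynomial `f`, and let `Φ` be an integer polynomial of Mahler
measure `1` (so a product of cyclotomic polynomials, up to sign and a power of `X`).  We consider the
`β` for which `f Φ = X ^ N A + B` is a long shift (for example `B = ± A^*`: Salem's construction), has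
a long gap after its leading block `A`, or is a sum of few blocks with long gaps.
-/

set_option autoImplicit false

open Polynomial

namespace Pool.Agent.Results.MP_1f45fc_nt.SalemConstruction

/-- `β` is a Perron number: a real algebraic integer `> 1` all of whose other conjugates have absolute
value smaller than `β`. -/
def IsPerron (β : ℝ) : Prop :=
  1 < β ∧ IsIntegral ℤ β ∧ ∀ z : ℂ, aeval z (minpoly ℤ β) = 0 → z ≠ (β : ℂ) → ‖z‖ < β

/-- `B` is a Parry number: the orbit of `1` under `x ↦ B x - ⌊B x⌋` is finite. -/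
def IsParry (B : ℝ) : Prop :=
  Set.Finite (Set.range (fun k : ℕ => (fun x : ℝ => Int.fract (B * x))^[k] (1 : ℝ)))

/-- `τ` is Lehmer's number. -/
def IsLehmer (τ : ℝ) : Prop :=
  1 < τ ∧ τ ^ 10 + τ ^ 9 - τ ^ 7 - τ ^ 6 - τ ^ 5 - τ ^ 4 - τ ^ 3 + τ + 1 = 0

/-- the degree of `β` -/
noncomputable def deg (β : ℝ) : ℕ := (minpoly ℤ β).natDegree

/-- the Mahler measure of an integer polynomial -/
noncomputable def measure (f : ℤ[X]) : ℝ := (f.map (Int.castRingHom ℂ)).mahlerMeasure

open Classical in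
/-- the number of complex zeros of `A` of modulus greater than one, with multiplicity -/
noncomputable def outerZeros (A : ℤ[X]) : ℕ :=
  ((A.map (Int.castRingHom ℂ)).roots.filter fun z => 1 < ‖z‖).card

open Classical in
/-- the number of complex zeros `z` of `A` with `1 < |z| ≤ r`, with multiplicity -/
noncomputable def annulusZeros (r : ℝ) (A : ℤ[X]) : ℕ :=
  ((A.map (Int.castRingHom ℂ)).roots.filter fun z => 1 < ‖z‖ ∧ ‖z‖ ≤ r).card

/-- `(1 + U) / (1 - U)` -/
noncomputable def rad (U : ℝ) : ℝ := (1 + U) / (1 - U)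

/-- `A` does not vanish at `0` and is not reciprocal up to sign -/
def NonReciprocal (A : ℤ[X]) : Prop := A.coeff 0 ≠ 0 ∧ A.reverse ≠ A ∧ A.reverse ≠ -A

/-- `X ^ N A + B` is a shift of length `g` with `|B| ≤ H |A|` on the unit circle -/
structure Shift (A B : ℤ[X]) (N g : ℕ) (H : ℝ) : Prop where
  ne : A ≠ 0
  one_le : 1 ≤ g
  one_le_H : 1 ≤ H
  degree : B.natDegree + g ≤ N + A.natDegree
  circle : ∀ z : ℂ, ‖z‖ = 1 → ‖aeval z B‖ ≤ H * ‖aeval z A‖

/-- the sum of the absolute values of the coefficients -/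
noncomputable def length (B : ℤ[X]) : ℝ := ∑ i ∈ B.support, |(B.coeff i : ℝ)|

/-- `256 D² (1 + log (4 D))` -/
noncomputable def gapLength (D : ℕ) : ℝ := 256 * (D : ℝ) ^ 2 * (1 + Real.log (4 * D))

/-- the polynomial with the blocks `A s` at `X ^ s` for `s` in `S` -/
noncomputable def blockSum (S : Finset ℕ) (A : ℕ → ℤ[X]) : ℤ[X] := ∑ s ∈ S, A s * X ^ s

/-- Let `β` be a Perron number with minimal polynomial `f`, and `Φ` an integer polynomial of Mahler
measure `1`.

(1) Lower bounds for `β`: let `f Φ = X ^ N A + B` be a shift of length `g`. If `A` has a zero of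
modulus at least `1.2` and `g ≥ 159 k + 7 log H`, `k` the number of outer zeros of `A`, then
`β > 1.18`. If `k = 1`, `A(t) = 0` and `|t| > c > 1`, `H (c |t| - 1) < c ^ g (|t| - c)` then `β > c`
(with `H = 1`, `c = 1.17629` this holds for `g = 2`, `|t| ≥ 3.03`; `g = 3`, `|t| ≥ 2.03`; `g = 4`,
`|t| ≥ 1.7`; `g = 5`, `|t| ≥ 1.54`). If `k = 1`, `H = 1`, `g ≥ 10` and `A` is nonreciprocal then
`β > 1.17629`. So in these cases `β` is greater than Lehmer's number.

(2) If `β` is smaller than Lehmer's number, then `β ^ n` is not a Parry number for `n ≥ 60 deg β`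
if `f Φ = X ^ N A + B` is a shift of length `g` with nonreciprocal `A` and, for some `0 < U < 1`,
`5 + log H + 24 k / 5 ≤ g U` and `rad U ^ m ≤ 1.06`, where `m` is the number of zeros of `A` with
`1 < |z| ≤ rad U`;

(3) and it is not a Parry number for `n ≥ 35 deg β` if `f Φ = X ^ N A + B` with nonreciprocal `A`,
`deg B + g ≤ N` and `g ≥ 45 k (deg A (1 + log (40 k)) + log (length B) + 5)`, or if `f Φ` is a sum of
at most `r + 1` blocks of degree at most `D` at exponents with distances at least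
`gapLength (2 ^ r D)`, with nonreciprocal leading block. -/
theorem result (β : ℝ) (hβ : IsPerron β) (Φ : ℤ[X]) (hΦ : measure Φ = 1) :
    (∀ (A B : ℤ[X]) (N g : ℕ) (H : ℝ), Shift A B N g H → minpoly ℤ β * Φ = X ^ N * A + B →
      ((∃ z : ℂ, aeval z A = 0 ∧ 6 / 5 ≤ ‖z‖) → 159 * (outerZeros A : ℝ) + 7 * Real.log H ≤ g →
        59 / 50 < β) ∧
      (outerZeros A = 1 → ∀ c : ℝ, 1 < c → (∃ t : ℂ, aeval t A = 0 ∧ c < ‖t‖ ∧
        H * (c * ‖t‖ - 1) < c ^ g * (‖t‖ - c)) → c < β) ∧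
      (outerZeros A = 1 → H = 1 → 10 ≤ g → NonReciprocal A → 117629 / 100000 < β)) ∧
    (∀ τ : ℝ, IsLehmer τ → τ < 117629 / 100000) ∧
    (∀ τ : ℝ, IsLehmer τ → β < τ →
      (∀ (A B : ℤ[X]) (N g : ℕ) (H U : ℝ), Shift A B N g H → minpoly ℤ β * Φ = X ^ N * A + B →
        NonReciprocal A → 0 < U → U < 1 → 5 + Real.log H + 24 / 5 * outerZeros A ≤ g * U →
        rad U ^ (annulusZeros (rad U) A) ≤ 53 / 50 →
        ∀ n : ℕ, 60 * deg β ≤ n → ¬ IsParry (β ^ n)) ∧
      (∀ (A B : ℤ[X]) (N g : ℕ), minpoly ℤ β * Φ = X ^ N * A + B → NonReciprocal A → B ≠ 0 →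
        1 ≤ g → B.natDegree + g ≤ N →
        45 * (outerZeros A : ℝ) * (A.natDegree * (1 + Real.log (40 * outerZeros A)) +
          Real.log (length B) + 5) ≤ g →
        ∀ n : ℕ, 35 * deg β ≤ n → ¬ IsParry (β ^ n)) ∧
      (∀ (r D t : ℕ) (S : Finset ℕ) (A : ℕ → ℤ[X]), minpoly ℤ β * Φ = blockSum S A →
        S.card ≤ r + 1 → t ∈ S → (∀ s ∈ S, s ≤ t) → (∀ s ∈ S, (A s).natDegree ≤ D) →
        (∀ s ∈ S, ∀ u ∈ S, s ≠ u → gapLength (2 ^ r * D) ≤ |(s : ℝ) - u|) →
        NonReciprocal (A t) → ∀ n : ℕ, 35 * deg β ≤ n → ¬ IsParry (β ^ n))) := by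
  have hβ' : Pool.Agent.H892.Parry.IsPerron β := hβ
  have hΦ' : (Pool.Agent.N639.SC.cx Φ).mahlerMeasure = 1 := hΦ
  have hMF := Pool.Agent.N639.SC.mahler_F (β := β) hΦ'
  have hz : ∀ F : ℤ[X], minpoly ℤ β * Φ = F → ∀ z : ℂ, aeval z F = 0 → ‖z‖ ≤ β := by
    rintro F rfl z hz
    exact Pool.Agent.N639.SC.zero_le hβ' hΦ' hz
  have hlead : ∀ (A B : ℤ[X]) (N g : ℕ) (H : ℝ), Shift A B N g H →
      minpoly ℤ β * Φ = X ^ N * A + B → |A.leadingCoeff| = 1 := by
    intro A B N g H hS hF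
    have hd : B.natDegree < N + A.natDegree := by have := hS.degree; have := hS.one_le; omega
    have h1 := Pool.Agent.N639.SC.lead_F hS.ne hd
    have hΦ0 : Φ ≠ 0 := by
      rintro rfl
      simp [measure] at hΦ
    have h2 : ‖(Pool.Agent.N639.SC.cx Φ).leadingCoeff‖ = 1 := by
      apply le_antisymm _ (Pool.Agent.N639.SC.one_le_lead hΦ0)
      have := leadingCoeff_le_mahlerMeasure (Pool.Agent.N639.SC.cx Φ)
      rw [hΦ'] at this
      exact this
    rw [← hF, Pool.Agent.N639.SC.cx, Polynomial.map_mul, leadingCoeff_mul, norm_mul] at h1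
    have h3 : ‖(Pool.Agent.N639.SC.cx (minpoly ℤ β)).leadingCoeff‖ = 1 := by
      rw [((minpoly.monic hβ.2.1).map _).leadingCoeff, norm_one]
    have h1' : ‖(Pool.Agent.N639.SC.cx (minpoly ℤ β)).leadingCoeff‖ *
        ‖(Pool.Agent.N639.SC.cx Φ).leadingCoeff‖ = ‖(Pool.Agent.N639.SC.cx A).leadingCoeff‖ := h1
    rw [h2, h3, one_mul, Pool.Agent.N639.SC.cx,
      leadingCoeff_map_of_injective Pool.Agent.N639.SC.inj, eq_intCast, Complex.norm_intCast] at h1'
    exact_mod_cast h1'.symm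
  refine ⟨fun A B N g H hS hF => ⟨fun ha hg => ?_, fun hk c hc ht => ?_, fun hk hH1 hg hA => ?_⟩,
    fun τ hτ => ?_,
    fun τ hτ hlt => ⟨?_, ?_, ?_⟩⟩
  · obtain ⟨z, h1, h2⟩ := Pool.Agent.N639.SC.int_house (g := g) (N := N) (B := B) hS.ne hS.one_le_H
      hS.degree hS.circle hg ha
    exact h2.trans_le (hz _ hF z h1)
  · obtain ⟨t, ht1, ht2, ht3⟩ := ht
    obtain ⟨z, h1, h2⟩ := Pool.Agent.N639.SC.int_one_gen (N := N) (B := B) hS.ne hS.one_le_H hS.one_le
      hS.degree hS.circle hk hc ht1 ht2 ht3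
    exact h2.trans_le (hz _ hF z h1)
  · subst hH1
    obtain ⟨z, h1, h2⟩ := Pool.Agent.N639.SC.int_one_outer (g := g) (N := N) (B := B) hS.ne hS.degree
      (fun z hz => by simpa using hS.circle z hz) hg hk (hlead A B N g 1 hS hF) hA.1 hA.2.1 hA.2.2
    exact h2.trans_le (hz _ hF z h1)
  · have := Pool.Agent.H892.Parry.lehmer_lt hτ.1 hτ.2
    norm_num at this ⊢
    exact this
  · intro A B N g H U hS hF hA h0 hU1 hg hm n hn
    have hlt' : β < 1.17629 := hlt.trans (Pool.Agent.H892.Parry.lehmer_lt hτ.1 hτ.2)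
    have h1 := Pool.Agent.N639.SC.int_smyth (g := g) (N := N) (B := B) hS.ne hS.one_le hS.one_le_H
      hS.degree hS.circle h0 hU1 hg hm hA.1 hA.2.1 hA.2.2
    rw [← hF, hMF] at h1
    exact Pool.Agent.N639.SC.not_parry (r := 119 / 100 / 1.17629) (t := 60) hβ' hlt' (by norm_num)
      (by norm_num) h1 (by norm_num) n hn (by norm_num)
  · intro A B N g hF hA hB hg1 hdeg hg n hn
    have hlt' : β < 1.17629 := hlt.trans (Pool.Agent.H892.Parry.lehmer_lt hτ.1 hτ.2)
    have hA0 : A ≠ 0 := by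
      rintro rfl
      exact hA.1 (by simp)
    have h1 := Pool.Agent.N772.SC.gap_int A B N g hA0 hB hg1 hdeg hg
    have h5 := Pool.Agent.N772.SC.smyth A hA.1 hA.2.1 hA.2.2
    have h6 : 6 / 5 ≤ Pool.Agent.H892.Parry.M β := by
      rw [← hMF, hF]
      refine le_trans ?_ h1
      linarith
    exact Pool.Agent.N639.SC.not_parry (r := 6 / 5 / 1.17629) (t := 35) hβ' hlt' (by norm_num)
      (by norm_num) h6 (by norm_num) n hn (by norm_num)
  · intro r D t S A hF hcard ht hmax hD hgap hA n hn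
    have hlt' : β < 1.17629 := hlt.trans (Pool.Agent.H892.Parry.lehmer_lt hτ.1 hτ.2)
    have h1 : 6 / 5 ≤ ((blockSum S A).map (Int.castRingHom ℂ)).mahlerMeasure := by
      refine Pool.Agent.N772.BL.lead hcard ht hmax hD ?_ hA.1 hA.2.1 hA.2.2
      intro s hs u hu hsu
      have h := hgap s hs u hu hsu
      refine le_trans (le_of_eq ?_) h
      unfold Pool.Agent.N772.BL.thr gapLength
      ring
    have h6 : 6 / 5 ≤ Pool.Agent.H892.Parry.M β := by
      rw [← hMF, hF]
      exact h1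
    exact Pool.Agent.N639.SC.not_parry (r := 6 / 5 / 1.17629) (t := 35) hβ' hlt' (by norm_num)
      (by norm_num) h6 (by norm_num) n hn (by norm_num)

end Pool.Agent.Results.MP_1f45fc_nt.SalemConstruction
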